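import Pool.Agent.H380.BG.Stm

set_option autoImplicit false

/-! # Gaussian smoothed sums of coefficients as vertical line integrals -/

namespace Pool.Agent.H230.BG.Csa

open Complex MeasureTheory Filter Topology Set
open Pool.Agent.H380.BG
open scoped Real

/-- the exponent -/
noncomputable def ee (x L : ℝ) (n : ℕ) (t : ℝ) : ℂ :=
  (-(1 / (2 * (L : ℂ) ^ 2))) * (t : ℂ) ^ 2 +
    (I * (3 / (2 * (L : ℂ) ^ 2) + ((Real.log x - Real.log n : ℝ) : ℂ))) * t +
    (9 / (8 * (L : ℂ) ^ 2) + 3 / 2 * ((Real.log x - Real.log n : ℝ) : ℂ))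

theorem ee_eq (x L : ℝ) (hx : 1 ≤ x) (hL : 1 ≤ L) (n : ℕ) (hn : 1 ≤ n) (t : ℝ) :
    (n : ℂ) ^ (-(3 / 2 + I * (t : ℂ))) * ((x : ℂ) ^ (3 / 2 + I * (t : ℂ)) *
      cexp ((3 / 2 + I * (t : ℂ)) ^ 2 / (2 * (L : ℂ) ^ 2))) = cexp (ee x L n t) := by
  have hn0 : (n : ℂ) ≠ 0 := by exact_mod_cast (by omega : n ≠ 0)
  have hx0 : (x : ℂ) ≠ 0 := by exact_mod_cast (by linarith : x ≠ 0)
  have hL0 : (L : ℂ) ≠ 0 := by exact_mod_cast (by linarith : L ≠ 0)
  rw [cpow_def_of_ne_zero hn0, cpow_def_of_ne_zero hx0, ← Complex.exp_add, ← Complex.exp_add]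
  congr 1
  rw [← Complex.natCast_log, ← Complex.ofReal_log (by linarith : (0 : ℝ) ≤ x), ee]
  push_cast
  have hI : I ^ 2 = -1 := Complex.I_sq
  field_simp
  ring_nf
  rw [hI]
  ring

theorem ee_re (x L : ℝ) (n : ℕ) (t : ℝ) :
    (ee x L n t).re = -(1 / (2 * L ^ 2)) * t ^ 2 + 9 / (8 * L ^ 2) +
      3 / 2 * (Real.log x - Real.log n) := by
  have h : ee x L n t = ((-(1 / (2 * L ^ 2)) * t ^ 2 + 9 / (8 * L ^ 2) +
      3 / 2 * (Real.log x - Real.log n) : ℝ) : ℂ) +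
      (((3 / (2 * L ^ 2) + (Real.log x - Real.log n)) * t : ℝ) : ℂ) * I := by
    rw [ee]
    push_cast
    ring
  rw [h, Complex.add_re, Complex.ofReal_re, Complex.re_ofReal_mul, Complex.I_re, mul_zero, add_zero]

theorem ee_int (x L : ℝ) (hL : 1 ≤ L) (n : ℕ) : Integrable fun t : ℝ => cexp (ee x L n t) := by
  have hL0 : 0 < L := by linarith
  refine integrable_cexp_quadratic' ?_ _ _
  have h : (-(1 / (2 * (L : ℂ) ^ 2))) = ((-(1 / (2 * L ^ 2)) : ℝ) : ℂ) := by push_cast; ring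
  rw [h, Complex.ofReal_re]
  have : 0 < 1 / (2 * L ^ 2) := by positivity
  linarith

theorem ee_val (x L : ℝ) (hL : 1 ≤ L) (n : ℕ) :
    ∫ t : ℝ, cexp (ee x L n t) = ((Real.sqrt (2 * π) * L : ℝ) : ℂ) *
      ((Real.exp (-(L ^ 2 * (Real.log x - Real.log n) ^ 2 / 2)) : ℝ) : ℂ) := by
  have hL0 : 0 < L := by linarith
  have hLc : (L : ℂ) ≠ 0 := by exact_mod_cast hL0.ne'
  have h : (-(1 / (2 * (L : ℂ) ^ 2))) = ((-(1 / (2 * L ^ 2)) : ℝ) : ℂ) := by push_cast; ring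
  have hneg : (-(1 / (2 * (L : ℂ) ^ 2))).re < 0 := by
    rw [h, Complex.ofReal_re]
    have : 0 < 1 / (2 * L ^ 2) := by positivity
    linarith
  have h1 := integral_cexp_quadratic hneg
    (I * (3 / (2 * (L : ℂ) ^ 2) + ((Real.log x - Real.log n : ℝ) : ℂ)))
    (9 / (8 * (L : ℂ) ^ 2) + 3 / 2 * ((Real.log x - Real.log n : ℝ) : ℂ))
  have h2 : ∫ t : ℝ, cexp (ee x L n t) = (π / -(-(1 / (2 * (L : ℂ) ^ 2)))) ^ (1 / 2 : ℂ) *
      cexp ((9 / (8 * (L : ℂ) ^ 2) + 3 / 2 * ((Real.log x - Real.log n : ℝ) : ℂ)) -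
        (I * (3 / (2 * (L : ℂ) ^ 2) + ((Real.log x - Real.log n : ℝ) : ℂ))) ^ 2 /
          (4 * (-(1 / (2 * (L : ℂ) ^ 2))))) := h1
  rw [h2]
  congr 1
  · have e1 : (π : ℂ) / -(-(1 / (2 * (L : ℂ) ^ 2))) = ((2 * π * L ^ 2 : ℝ) : ℂ) := by
      push_cast
      field_simp
    have e2 : (1 / 2 : ℂ) = ((1 / 2 : ℝ) : ℂ) := by push_cast; rfl
    rw [e1, e2, ← Complex.ofReal_cpow (by positivity), ← Real.sqrt_eq_rpow,
      Real.sqrt_mul (by positivity), Real.sqrt_sq hL0.le]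
  · rw [Complex.ofReal_exp]
    congr 1
    push_cast
    have hI : I ^ 2 = -1 := Complex.I_sq
    rw [mul_pow, hI]
    field_simp
    ring

end Pool.Agent.H230.BG.Csa

namespace Pool.Agent.H230.BG

open Complex MeasureTheory Filter Topology Set
open Pool.Agent.H380.BG
open scoped Real

open Csa in
theorem t_CSA : S_CSA := by
  intro b W hC x L hx hL
  have hL0 : 0 < L := by linarith
  have hx0 : 0 < x := by linarith
  -- the terms
  set F : ℕ → ℝ → ℂ := fun n t => (b n : ℂ) * cexp (ee x L n t) with hF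
  have hF_int : ∀ n, Integrable (F n) := fun n => (ee_int x L hL n).const_mul _
  have hnorm : ∀ n, ∫ t : ℝ, ‖F n t‖ = b n * (n : ℝ) ^ (-(3 / 2) : ℝ) *
      ∫ t : ℝ, Real.exp (-(1 / (2 * L ^ 2)) * t ^ 2 + 9 / (8 * L ^ 2) + 3 / 2 * Real.log x) := by
    intro n
    rcases Nat.eq_zero_or_pos n with h | h
    · rw [h]
      simp [hF, hC.zero]
    · have hn : (0 : ℝ) < n := by exact_mod_cast h
      rw [← integral_const_mul]
      congr 1
      funext t
      rw [hF]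
      simp only
      rw [norm_mul, Complex.norm_real, Real.norm_eq_abs, abs_of_nonneg (hC.nonneg n),
        Complex.norm_exp, ee_re, mul_assoc, Real.rpow_def_of_pos hn, ← Real.exp_add]
      congr 2
      ring
  have hF_sum : Summable fun n => ∫ t : ℝ, ‖F n t‖ := by
    simp_rw [hnorm]
    exact (hC.summ (3 / 2) (by norm_num)).mul_right _
  have h1 := hasSum_integral_of_summable_integral_norm hF_int hF_sum
  -- the integrals of the terms
  have h2 : ∀ n, ∫ t : ℝ, F n t = ((Real.sqrt (2 * π) * L : ℝ) : ℂ) *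
      ((b n * Real.exp (-(L ^ 2 * Real.log (n / x) ^ 2 / 2)) : ℝ) : ℂ) := by
    intro n
    rcases Nat.eq_zero_or_pos n with h | h
    · rw [h]
      simp [hF, hC.zero]
    · have hn : (0 : ℝ) < n := by exact_mod_cast h
      rw [hF]
      simp only
      rw [integral_const_mul, ee_val x L hL n, Real.log_div hn.ne' hx0.ne']
      have e : (Real.log n - Real.log x) ^ 2 = (Real.log x - Real.log n) ^ 2 := by ring
      rw [e, Complex.ofReal_mul (b n)]
      ring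
  -- the sum of the terms
  have h3 : ∀ t : ℝ, ∑' n, F n t = W (3 / 2 + I * t) / (1 / 2 + I * t) *
      (x : ℂ) ^ (3 / 2 + I * (t : ℂ)) * cexp ((3 / 2 + I * (t : ℂ)) ^ 2 / (2 * (L : ℂ) ^ 2)) := by
    intro t
    have hre : (1 : ℝ) < (3 / 2 + I * (t : ℂ)).re := by
      have : (3 / 2 + I * (t : ℂ)).re = 3 / 2 := by simp
      rw [this]
      norm_num
    have hne : (1 / 2 + I * (t : ℂ)) ≠ 0 := by
      intro h
      have h4 := congrArg Complex.re h
      simp at h4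
    rw [hC.ser _ hre]
    have e : (3 / 2 + I * (t : ℂ) - 1) = 1 / 2 + I * t := by ring
    rw [e, mul_div_cancel_left₀ _ hne, mul_assoc, ← tsum_mul_right]
    refine tsum_congr fun n => ?_
    rcases Nat.eq_zero_or_pos n with h | h
    · rw [h]
      simp [hF, hC.zero]
    · rw [mul_assoc, ee_eq x L hx hL n h t]
  simp_rw [h2, h3] at h1
  have hc : ((Real.sqrt (2 * π) * L : ℝ) : ℂ) ≠ 0 := by
    have : 0 < Real.sqrt (2 * π) * L := by positivity
    exact_mod_cast this.ne'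
  have h4 := h1.mul_left ((1 / (Real.sqrt (2 * π) * L) : ℝ) : ℂ)
  have h5 : (fun n : ℕ => ((1 / (Real.sqrt (2 * π) * L) : ℝ) : ℂ) *
      (((Real.sqrt (2 * π) * L : ℝ) : ℂ) *
      ((b n * Real.exp (-(L ^ 2 * Real.log (n / x) ^ 2 / 2)) : ℝ) : ℂ))) =
      fun n : ℕ => ((b n * Real.exp (-(L ^ 2 * Real.log (n / x) ^ 2 / 2)) : ℝ) : ℂ) := by
    funext n
    rw [← mul_assoc, Complex.ofReal_div, Complex.ofReal_one, one_div, inv_mul_cancel₀ hc, one_mul]
  rw [h5] at h4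
  refine ⟨Complex.summable_ofReal.1 h4.summable, ?_⟩
  rw [Complex.ofReal_tsum]
  exact h4.tsum_eq

end Pool.Agent.H230.BG
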