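import Pool.Agent.H354.BG.Stm

set_option autoImplicit false

/-! Project BG: the axioms X0, L1, L2 of the line groups. -/

namespace Pool.Agent.H230.BG.LX

open Pool.Agent.H354.BG
open Pool.Agent.H482R3.EA (W inv ev PP xx evF cond1 cond2 Syl gOf Sys St Near InD Adm Act)
open Pool.Agent.H482R3.EB (tot wp alt rels AR gR TR Tame Symm alt_length)

variable (D : Dat) (U : Finset (Fin D.r)) (b : Fin D.r)

/-- the position of a point `mk g` on the line of `mk g` -/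
lemma pos {v w : Fin D.n} (hc : okL D U b v w) (g : D.A) (C : D.A ⧸ Hw D U b w)
    (q : D.A ⧸ H0 D U b) (hC : C = QuotientGroup.mk g) (hq : q = QuotientGroup.mk g) :
    ∃ t u : D.A, (C.out : D.A) = g * t ∧ u ∈ par D (pZ D (pZ D U b) (D.β w)) ∧
      rho D U t = gR D.m w ^ (- eg D (D.β w) ((C.out : D.A)⁻¹ * q.out)) * u := by
  have h1 : g⁻¹ * C.out ∈ Hw D U b w := by
    rw [← QuotientGroup.eq]
    exact hC.symm.trans (QuotientGroup.out_eq' C).symm
  have h2 : g⁻¹ * q.out ∈ H0 D U b := by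
    rw [← QuotientGroup.eq]
    exact hq.symm.trans (QuotientGroup.out_eq' q).symm
  obtain ⟨i, u, hu, h3⟩ := (mem_Hw D U b).mp h1
  refine ⟨g⁻¹ * C.out, u, by group, hu, ?_⟩
  have h4 : eg D (D.β w) (g⁻¹ * C.out) = i := by
    have h5 := eg_rho D (D.β w) U (g⁻¹ * C.out)
    rw [if_pos hc.2.1, h3, eg_mul, eg_gR_zpow, eg_par D (b_notMem_pZ D (pZ D U b) (D.β w)) hu,
      add_zero] at h5
    exact h5.symm
  have h6 := eg_H0 D U b hc h2
  have h7 : (C.out : D.A)⁻¹ * q.out = (g⁻¹ * C.out)⁻¹ * (g⁻¹ * q.out) := by group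
  rw [h7, eg_mul, eg_inv, h4, h6, h3, add_zero, neg_neg]

/-- the position of a point on a cross line determines the point -/
lemma inj {v w : Fin D.n} (hc : okL D U b v w) (C : D.A ⧸ Hw D U b w) (p q : Pt D U b)
    (hp : Ix D U b p (Sum.inr ⟨(⟨(v, w), hc⟩ : LI D U b), C⟩ : Ln D U b))
    (hq : Ix D U b q (Sum.inr ⟨(⟨(v, w), hc⟩ : LI D U b), C⟩ : Ln D U b)) (hpq : p ≠ q) :
    eg D (D.β w) ((C.out : D.A)⁻¹ * p.1.out) ≠ eg D (D.β w) ((C.out : D.A)⁻¹ * q.1.out) := by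
  intro he
  obtain ⟨hp1, g, hp2, hp3⟩ : p.2.1 = v ∧ ∃ g : D.A, p.1 = QuotientGroup.mk g ∧
    C = QuotientGroup.mk g := hp
  obtain ⟨hq1, g', hq2, hq3⟩ : q.2.1 = v ∧ ∃ g : D.A, q.1 = QuotientGroup.mk g ∧
    C = QuotientGroup.mk g := hq
  obtain ⟨t, u, ht, hu, htu⟩ := pos D U b hc g C p.1 hp3 hp2
  obtain ⟨t', u', ht', hu', htu'⟩ := pos D U b hc g' C q.1 hq3 hq2
  rw [he] at htu
  apply hpq
  refine Prod.ext ?_ (Subtype.ext (hp1.trans hq1.symm))
  rw [hp2, hq2, QuotientGroup.eq, mem_H0]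
  have h1 : g⁻¹ * g' = t * t'⁻¹ := by
    have h2 : g * t = g' * t' := ht.symm.trans ht'
    rw [eq_mul_inv_iff_mul_eq, mul_assoc, ← h2]
    group
  rw [h1, map_mul, map_inv, htu, htu']
  have h3 : u * u'⁻¹ ∈ par D (pZ D (pZ D U b) (D.β w)) :=
    Subgroup.mul_mem _ hu (Subgroup.inv_mem _ hu')
  have h4 := ((comm_pZ D (pZ D U b) w (u * u'⁻¹) h3).zpow_left
    (-(eg D (D.β w) ((C.out : D.A)⁻¹ * q.1.out)))).eq
  have h5 : gR D.m w ^ (-(eg D (D.β w) ((C.out : D.A)⁻¹ * q.1.out))) * u *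
      (gR D.m w ^ (-(eg D (D.β w) ((C.out : D.A)⁻¹ * q.1.out))) * u')⁻¹ = u * u'⁻¹ := by
    rw [mul_inv_rev, ← mul_assoc, mul_assoc _ u, h4, mul_assoc, mul_inv_cancel, mul_one]
  rw [h5]
  exact par_mono D (pZ_sub D (pZ D U b) (D.β w)) h3

/-- powers of the points of a block line -/
lemma rhoP_gR (v : Fin D.n) (hv : D.β v = b) :
    ((rhoP D b (gR D.m v) : par D {b}) : D.A) = gR D.m v := by
  rw [rhoP_coe, rho_gR, if_pos (Finset.mem_singleton.mpr hv)]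

theorem t_LX : S_LX := by
  intro D U b _
  refine ⟨?_, ?_, ?_⟩
  · intro l p n hp hx
    rcases l with g | ⟨⟨⟨v, w⟩, hc⟩, C⟩
    · have h1 : (rhoP D b (gR D.m p.2.1) : par D {b}) ^ n = 1 := hx
      have h2 := congrArg Subtype.val h1
      rw [Subgroup.coe_zpow, rhoP_gR D b _ p.2.2] at h2
      exact gR_zpow_eq_one D h2
    · exact (Pool.Agent.H482R3.EB.Asm.x3 _ (kk_spec D hc).1).1 _ n hx
  · intro l p q i j hp hq hpq hx
    rcases l with g | ⟨⟨⟨v, w⟩, hc⟩, C⟩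
    · have hp' : p.1 = g := hp
      have hq' : q.1 = g := hq
      have hne : p.2.1 ≠ q.2.1 := fun h => hpq (Prod.ext (hp'.trans hq'.symm) (Subtype.ext h))
      have h1 : (rhoP D b (gR D.m p.2.1) : par D {b}) ^ i *
        (rhoP D b (gR D.m q.2.1) : par D {b}) ^ j = 1 := hx
      have h2 := congrArg Subtype.val h1
      rw [Subgroup.coe_mul, Subgroup.coe_zpow, Subgroup.coe_zpow, rhoP_gR D b _ p.2.2,
        rhoP_gR D b _ q.2.2] at h2
      exact (tame D).i2 _ _ i j hne h2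
    · exact (Pool.Agent.H482R3.EB.Asm.x3 _ (kk_spec D hc).1).2.1 _ _ i j
        (inj D U b hc C p q hp hq hpq) hx
  · intro l p q r i j d hp hq hr hpq hqr hpr hx
    rcases l with g | ⟨⟨⟨v, w⟩, hc⟩, C⟩
    · have hp' : p.1 = g := hp
      have hq' : q.1 = g := hq
      have hr' : r.1 = g := hr
      have n1 : p.2.1 ≠ q.2.1 := fun h => hpq (Prod.ext (hp'.trans hq'.symm) (Subtype.ext h))
      have n2 : q.2.1 ≠ r.2.1 := fun h => hqr (Prod.ext (hq'.trans hr'.symm) (Subtype.ext h))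
      have n3 : p.2.1 ≠ r.2.1 := fun h => hpr (Prod.ext (hp'.trans hr'.symm) (Subtype.ext h))
      have h1 : (rhoP D b (gR D.m p.2.1) : par D {b}) ^ i *
        (rhoP D b (gR D.m q.2.1) : par D {b}) ^ j *
        (rhoP D b (gR D.m r.2.1) : par D {b}) ^ d = 1 := hx
      have h2 := congrArg Subtype.val h1
      rw [Subgroup.coe_mul, Subgroup.coe_mul, Subgroup.coe_zpow, Subgroup.coe_zpow,
        Subgroup.coe_zpow, rhoP_gR D b _ p.2.2, rhoP_gR D b _ q.2.2, rhoP_gR D b _ r.2.2] at h2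
      exact (tame D).i3 _ _ _ i j d n1 n2 n3 h2
    · exact (Pool.Agent.H482R3.EB.Asm.x3 _ (kk_spec D hc).1).2.2 _ _ _ i j d
        (inj D U b hc C p q hp hq hpq) (inj D U b hc C q r hq hr hqr)
        (inj D U b hc C p r hp hr hpr) hx

end Pool.Agent.H230.BG.LX
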